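import Pool.Agent.H18.TD.All

/-!
# Polynomials `P` such that `e` and `exp (P e)` are algebraically dependent

Let `t` be a real transcendental number, for example `t = e`, and `β ≠ 0` a real number which
is algebraic over `ℚ(t)`, for example `β = 1`. The polynomials `a` with rational coefficients and
degree at most `D` for which `t` and `exp (β * a t)` are algebraically dependent form a vector
space over the rational numbers, of a dimension `d` with `d ^ 2 ≤ 4 * D + 1`.
-/

set_option autoImplicit false

open Polynomial Module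

namespace Pool.Agent.Results.MP_58ae59_nt.DependenceLaw

theorem result : ∀ t β : ℝ, Transcendental ℚ t → β ≠ 0 → ¬ AlgebraicIndependent ℚ ![t, β] →
    ∀ D : ℕ, ∃ W : Submodule ℚ ℚ[X],
      (∀ a : ℚ[X], a ∈ W ↔ a.natDegree ≤ D ∧
        ¬ AlgebraicIndependent ℚ ![t, Real.exp (β * aeval t a)]) ∧
      FiniteDimensional ℚ W ∧ (finrank ℚ W) ^ 2 ≤ 4 * D + 1 :=
  fun t β ht hβ hd D => H18.TD.aSPC t β ht hβ ((H18.TD.aDEP t β ht).1 hd) D

end Pool.Agent.Results.MP_58ae59_nt.DependenceLaw
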