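import Pool.Agent.H51.EI.All

/-! Let `K` be `ℚ` or an imaginary quadratic subfield of `ℂ`, `t ≠ 0` in `K`, and `w` a `2 × 2`
matrix with entries in the field `K (e ^ t)` such that the numbers `exp (w i j)` are in `K`. Then
`det (t + w) ≠ 0`.

For instance (`K = ℚ`, `t = 1`): the numbers `e ^ e` and `e ^ (1 / e)` are not both rational
(`w` with the rows `0, e` and `1 / e, 0`). If `exp E` is rational, `E = r e` with `r ≠ 0` rational,
then `exp b` is irrational for all `b = (1 + u E + v E ^ 2) / (x E + y)` with integers `u, v` and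
`(x, y) ≠ (0, 0)` (rows `0, E` and `x b - v E, u E - y b`). With `K = ℚ (i)`, `t = i`: the number
`exp (e ^ i)` is not in `ℚ (i)` (rows `0, a` and `- conj a, 0` with `a = e ^ i`). -/

set_option autoImplicit false

namespace Pool.Agent.Results.MP_58ae59_nt.ExpDeterminant

/-- `K` is `ℚ` or an imaginary quadratic field, `t ≠ 0` is in `K`, the entries of `w` are in
`K (exp t)` and their exponentials are in `K`. Then `det (t + w) ≠ 0`. -/
theorem result (K : Subfield ℂ)
    (hK : Module.finrank ℚ K = 1 ∨ (Module.finrank ℚ K = 2 ∧ ∃ x ∈ K, x.im ≠ 0))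
    (t : ℂ) (ht : t ∈ K) (ht0 : t ≠ 0) (w : Matrix (Fin 2) (Fin 2) ℂ)
    (hw : ∀ i j, w i j ∈ Subfield.closure ((K : Set ℂ) ∪ {Complex.exp t}))
    (he : ∀ i j, Complex.exp (w i j) ∈ K) :
    (t • (1 : Matrix (Fin 2) (Fin 2) ℂ) + w).det ≠ 0 := by
  intro h
  refine Pool.Agent.H51.EI.g_DETK K t w hK ht ht0 hw he ?_
  rw [Matrix.det_fin_two] at h
  simp only [Matrix.add_apply, Matrix.smul_apply, Matrix.one_apply_eq, smul_eq_mul, mul_one,
    Matrix.one_apply_ne (show (0 : Fin 2) ≠ 1 by decide),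
    Matrix.one_apply_ne (show (1 : Fin 2) ≠ 0 by decide), mul_zero, zero_add] at h
  linear_combination h

end Pool.Agent.Results.MP_58ae59_nt.ExpDeterminant
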