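import Pool.Agent.H65.PK.All

/-!
# Products of logarithms of algebraic numbers in a field of transcendence degree one

Let `t` be a real transcendental number, for example `t = e`. Let `l i` be real numbers algebraic
over `ℚ(t)`, linearly independent over the rational numbers, with algebraic exponentials, and let
`m i` be real numbers algebraic over `ℚ(t)` with exponentials algebraic over `ℚ(t)`. If
`∑ i, l i * m i = 0`, then `m i = ∑ j, a i j * l j` with an antisymmetric rational matrix `a`.
-/

set_option autoImplicit false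

open IntermediateField

namespace Pool.Agent.Results.MP_58ae59_nt.ProductKernel

theorem result : ∀ t : ℝ, Transcendental ℚ t → ∀ (n : ℕ) (l m : Fin n → ℝ),
    LinearIndependent ℚ l → (∀ i, IsAlgebraic ℚ⟮t⟯ (l i)) →
    (∀ i, IsAlgebraic ℚ (Real.exp (l i))) →
    (∀ i, IsAlgebraic ℚ⟮t⟯ (m i)) → (∀ i, IsAlgebraic ℚ⟮t⟯ (Real.exp (m i))) →
    ∑ i, l i * m i = 0 →
    ∃ a : Matrix (Fin n) (Fin n) ℚ, a.transpose = -a ∧ ∀ i, m i = ∑ j, (a i j : ℝ) * l j :=
  fun t ht n l m hl h1 h2 h3 h4 h5 => H65.PK.aPKT t ht n l m hl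
    (fun i => H65.PK.ao_of_real t _ (h1 i)) h2 (fun i => H65.PK.ao_of_real t _ (h3 i))
    (fun i => H65.PK.ao_of_real t _ (h4 i)) h5

end Pool.Agent.Results.MP_58ae59_nt.ProductKernel
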