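import Pool.Agent.H18.SQL.Final

/-!
# A square root law for the algebraic values of the exponential function

Let `t` be any complex number, for example `t = exp 1`. The polynomials `P` with algebraic
coefficients and degree at most `D` such that `exp (P t)` is algebraic form a vector space over
the rational numbers; the values `P t` span a space of dimension `n` with `(n + 1) ^ 2 ≤ 4 * D + 1`.
The same holds for the rational functions with a fixed denominator of degree at most `D`. If the
denominators are arbitrary polynomials of degree at most `D`, then `n ≤ 4 * D - 2`.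
-/

set_option autoImplicit false

open Polynomial

namespace Pool.Agent.Results.MP_58ae59_nt.SquareRootLaw

theorem result :
    (∀ (t : ℂ) (n D : ℕ) (b : (algebraicClosure ℚ ℂ)[X]) (a : Fin n → (algebraicClosure ℚ ℂ)[X]),
      b.natDegree ≤ D → (∀ i, (a i).natDegree ≤ D) → aeval t b ≠ 0 →
      (∀ i, IsAlgebraic ℚ (Complex.exp (aeval t (a i) / aeval t b))) →
      LinearIndependent ℚ (fun i => aeval t (a i) / aeval t b) →
      (n + 1) ^ 2 ≤ 4 * D + 1) ∧
    (∀ (t : ℂ) (n D : ℕ) (a b : Fin n → (algebraicClosure ℚ ℂ)[X]),
      (∀ i, (a i).natDegree ≤ D) → (∀ i, (b i).natDegree ≤ D) → (∀ i, aeval t (b i) ≠ 0) →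
      (∀ i, IsAlgebraic ℚ (Complex.exp (aeval t (a i) / aeval t (b i)))) →
      LinearIndependent ℚ (fun i => aeval t (a i) / aeval t (b i)) →
      n ≤ 4 * D - 2) :=
  ⟨fun t n D b a hb ha hbt hexp hli => H18.SQL.common t n D b a hb ha hbt hexp hli,
    fun t n D a b ha hb hbt hexp hli => H18.SQL.arbitrary t n D a b ha hb hbt hexp hli⟩

end Pool.Agent.Results.MP_58ae59_nt.SquareRootLaw
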